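import Pool.Agent.Q111.KU.Stm

/-!
# Project KU, job B1: the case of a small order parameter
-/

set_option autoImplicit false

namespace Pool.Agent.Q237.KU

open Finset Pool.Agent.Q111.KU

variable {V : Type} [Fintype V]

theorem sum_cos (t : V → ℝ) : ∑ i, ∑ j, Real.cos (t i - t j) = OP t := by
  unfold OP
  rw [sq, sq, sum_mul_sum, sum_mul_sum, ← sum_add_distrib]
  refine sum_congr rfl (fun i _ => ?_)
  rw [← sum_add_distrib]
  refine sum_congr rfl (fun j _ => ?_)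
  rw [Real.cos_sub]

theorem sum_cos_sq (t : V → ℝ) : ∑ i, ∑ j, Real.cos (t i - t j) ^ 2 =
    (Fintype.card V : ℝ) ^ 2 / 2 + OP (fun k => 2 * t k) / 2 := by
  rw [← sum_cos (fun k => 2 * t k)]
  have h1 : (Fintype.card V : ℝ) ^ 2 / 2 = ∑ i : V, ∑ j : V, (1 / 2 : ℝ) := by
    simp only [sum_const, card_univ, nsmul_eq_mul]
    ring
  rw [h1, sum_div, ← sum_add_distrib]
  refine sum_congr rfl (fun i _ => ?_)
  rw [sum_div, ← sum_add_distrib]
  refine sum_congr rfl (fun j _ => ?_)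
  rw [Real.cos_sq, mul_sub]

theorem OP_le (t : V → ℝ) : OP t ≤ (Fintype.card V : ℝ) ^ 2 := by
  rw [← sum_cos]
  calc ∑ i, ∑ j, Real.cos (t i - t j) ≤ ∑ i : V, ∑ j : V, (1 : ℝ) :=
        sum_le_sum (fun i _ => sum_le_sum (fun j _ => Real.cos_le_one _))
    _ = (Fintype.card V : ℝ) ^ 2 := by
        simp only [sum_const, card_univ, nsmul_eq_mul]
        ring

theorem OP_nonneg (t : V → ℝ) : 0 ≤ OP t := by
  unfold OP
  positivity

theorem q_eq (t : V → ℝ) (i : V) : ∑ j, Real.sin (t j - t i) =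
    (∑ j, Real.sin (t j)) * Real.cos (t i) - (∑ j, Real.cos (t j)) * Real.sin (t i) := by
  rw [sum_mul, sum_mul, ← sum_sub_distrib]
  refine sum_congr rfl (fun j _ => ?_)
  rw [Real.sin_sub]

theorem q_sum (t : V → ℝ) (C S : ℝ) : ∑ i, (S * Real.cos (t i) - C * Real.sin (t i)) ^ 2 =
    (Fintype.card V : ℝ) / 2 * (C ^ 2 + S ^ 2) + (∑ i, Real.cos (2 * t i)) / 2 * (S ^ 2 - C ^ 2) -
      S * C * (∑ i, Real.sin (2 * t i)) := by
  have h1 : (Fintype.card V : ℝ) / 2 * (C ^ 2 + S ^ 2) = ∑ i : V, (C ^ 2 + S ^ 2) / 2 := by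
    simp only [sum_const, card_univ, nsmul_eq_mul]
    ring
  rw [h1, sum_div, sum_mul, mul_sum, ← sum_add_distrib, ← sum_sub_distrib]
  refine sum_congr rfl (fun i _ => ?_)
  rw [Real.cos_two_mul, Real.sin_two_mul]
  have h2 := Real.sin_sq_add_cos_sq (t i)
  linear_combination (C ^ 2) * h2

/-- Cauchy-Schwarz -/
theorem cs2 {u v x y T : ℝ} (hT : 0 ≤ T) (h1 : x ^ 2 + y ^ 2 ≤ T ^ 2) {R : ℝ} (hR : 0 ≤ R)
    (h2 : u ^ 2 + v ^ 2 ≤ R ^ 2) : -(T * R) ≤ u * x + v * y := by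
  have h3 : (u * x + v * y) ^ 2 ≤ (T * R) ^ 2 := by
    have h4 : (u * x + v * y) ^ 2 ≤ (u ^ 2 + v ^ 2) * (x ^ 2 + y ^ 2) := by nlinarith [sq_nonneg (u * y - v * x)]
    have h5 : (u ^ 2 + v ^ 2) * (x ^ 2 + y ^ 2) ≤ R ^ 2 * T ^ 2 :=
      mul_le_mul h2 h1 (by positivity) (by positivity)
    calc (u * x + v * y) ^ 2 ≤ R ^ 2 * T ^ 2 := h4.trans h5
      _ = (T * R) ^ 2 := by ring
  exact (abs_le_of_sq_le_sq' h3 (by positivity)).1

theorem num_b1 {P R ε Y : ℝ} (h0 : 0 ≤ P) (h1 : P ≤ 1) (hR : 0 ≤ R) (hR1 : R ≤ (1 / 4 + ε) ^ 2) (hε : 0 < ε)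
    (hε1 : ε ≤ 1 / 1000) (h : 1 / 2 + P ^ 2 / 2 - R ≤ 2 * (1 / 4 + ε) - 3 / 2 * Y)
    (hY : (1 - P) / 2 * R ≤ (1 / 4 + ε) * Y) : R ≤ 5 * ε ∧ P ^ 2 ≤ 5 * ε := by
  have hPR : 0 ≤ (1 - P) * R := mul_nonneg (by linarith) hR
  have hY0 : 0 ≤ Y := by
    by_contra hcon
    push Not at hcon
    have : (1 / 4 + ε) * Y < 0 := mul_neg_of_pos_of_neg (by linarith) hcon
    linarith
  have hY1 : (1 / 4 + ε) * Y ≤ (251 / 1000) * Y := mul_le_mul_of_nonneg_right (by linarith) hY0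
  have hkey : P ^ 2 / 2 + (298 / 100) * ((1 - P) * R) ≤ R + 2 * ε := by
    nlinarith
  have hR2 : R ≤ 64 / 1000 := by nlinarith
  rcases le_or_gt P (1 / 2) with hP | hP
  · have h3 : (1 / 2) * R ≤ (1 - P) * R := mul_le_mul_of_nonneg_right (by linarith) hR
    have h4 : 0 ≤ P ^ 2 := sq_nonneg P
    constructor <;> linarith
  · exfalso
    nlinarith

theorem t_B1 : S_B1 := by
  intro V _ A θ ε hA hE hI hε hε1 hD hOP
  classical
  obtain ⟨n, hn⟩ : ∃ n : ℝ, n = (Fintype.card V : ℝ) := ⟨_, rfl⟩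
  have hn0 : 0 ≤ n := by rw [hn]; positivity
  have hB0 : ∀ i j, 0 ≤ 1 - A i j := by
    intro i j
    rcases hA.val i j with h | h <;> rw [h] <;> norm_num
  have hrow : ∀ i, ∑ j, (1 - A i j) ≤ (1 / 4 + ε) * n := by rw [hn]; exact hD
  -- the sums
  obtain ⟨X, hX⟩ : ∃ X : ℝ, X = ∑ i, ∑ j, (1 - A i j) * (Real.cos (θ i - θ j) ^ 2 - Real.cos (θ i - θ j)) := ⟨_, rfl⟩
  obtain ⟨Y, hY⟩ : ∃ Y : ℝ, Y = ∑ i, ∑ j, (1 - A i j) * Real.sin (θ j - θ i) ^ 2 := ⟨_, rfl⟩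
  obtain ⟨SB, hSB⟩ : ∃ SB : ℝ, SB = ∑ i, ∑ j, (1 - A i j) := ⟨_, rfl⟩
  obtain ⟨D, hDD⟩ : ∃ D : ℝ, D = ∑ i, ∑ j, (1 - A i j) * (1 + Real.cos (θ i - θ j)) := ⟨_, rfl⟩
  have hSB1 : SB ≤ (1 / 4 + ε) * n ^ 2 := by
    rw [hSB]
    calc ∑ i, ∑ j, (1 - A i j) ≤ ∑ i : V, (1 / 4 + ε) * n := sum_le_sum (fun i _ => hrow i)
      _ = (1 / 4 + ε) * n ^ 2 := by
          simp only [sum_const, card_univ, nsmul_eq_mul, ← hn]
          ring
  -- (1)
  have h1 : n ^ 2 / 2 + OP (fun k => 2 * θ k) / 2 - OP θ ≤ X := by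
    have e1 := sum_cos θ
    have e2 := sum_cos_sq θ
    rw [← hn] at e2
    have e3 : X = (∑ i, ∑ j, Real.cos (θ i - θ j) ^ 2 - ∑ i, ∑ j, Real.cos (θ i - θ j)) +
        ∑ i, ∑ j, A i j * (Real.cos (θ i - θ j) - Real.cos (θ i - θ j) ^ 2) := by
      rw [hX, ← sum_sub_distrib, ← sum_add_distrib]
      refine sum_congr rfl (fun i _ => ?_)
      rw [← sum_sub_distrib, ← sum_add_distrib]
      refine sum_congr rfl (fun j _ => ?_)
      ring
    have e4 : 0 ≤ ∑ i, ∑ j, A i j * (Real.cos (θ i - θ j) - Real.cos (θ i - θ j) ^ 2) := hI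
    rw [e1, e2] at e3
    linarith
  -- (2)
  have h2 : X ≤ 2 * SB - 3 / 2 * Y := by
    rw [hX, hSB, hY, mul_sum, mul_sum, ← sum_sub_distrib]
    refine sum_le_sum (fun i _ => ?_)
    rw [mul_sum, mul_sum, ← sum_sub_distrib]
    refine sum_le_sum (fun j _ => ?_)
    have e1 : Real.sin (θ j - θ i) ^ 2 = 1 - Real.cos (θ i - θ j) ^ 2 := by
      have e0 : Real.sin (θ j - θ i) = - Real.sin (θ i - θ j) := by
        rw [← Real.sin_neg]
        congr 1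
        ring
      have := Real.sin_sq_add_cos_sq (θ i - θ j)
      rw [e0, neg_sq]
      linarith
    have e2 : 2 * (1 - A i j) - 3 / 2 * ((1 - A i j) * Real.sin (θ j - θ i) ^ 2) -
        (1 - A i j) * (Real.cos (θ i - θ j) ^ 2 - Real.cos (θ i - θ j)) =
        (1 - A i j) * ((1 + Real.cos (θ i - θ j)) ^ 2 / 2) := by
      rw [e1]
      ring
    have e3 : 0 ≤ (1 - A i j) * ((1 + Real.cos (θ i - θ j)) ^ 2 / 2) := mul_nonneg (hB0 i j) (by positivity)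
    linarith
  -- (3)
  have h3 : ∑ i, (∑ j, Real.sin (θ j - θ i)) ^ 2 ≤ (1 / 4 + ε) * n * Y := by
    rw [hY, mul_sum]
    refine sum_le_sum (fun i _ => ?_)
    have e1 : ∑ j, Real.sin (θ j - θ i) = ∑ j, (1 - A i j) * Real.sin (θ j - θ i) := by
      have e2 := hE i
      have e3 : ∑ j, (1 - A i j) * Real.sin (θ j - θ i) = ∑ j, Real.sin (θ j - θ i) - ∑ j, A i j * Real.sin (θ j - θ i) := by
        rw [← sum_sub_distrib]
        refine sum_congr rfl (fun j _ => ?_)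
        ring
      rw [e3, e2, sub_zero]
    have e4 : (∑ j, (1 - A i j) * Real.sin (θ j - θ i)) ^ 2 ≤
        (∑ j, (1 - A i j)) * ∑ j, (1 - A i j) * Real.sin (θ j - θ i) ^ 2 := by
      apply sum_sq_le_sum_mul_sum_of_sq_eq_mul
      · exact fun j _ => hB0 i j
      · exact fun j _ => mul_nonneg (hB0 i j) (sq_nonneg _)
      · intro j _
        ring
    rw [e1]
    refine e4.trans (mul_le_mul_of_nonneg_right (hrow i) ?_)
    exact sum_nonneg (fun j _ => mul_nonneg (hB0 i j) (sq_nonneg _))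
  -- (4)
  obtain ⟨T, hT⟩ : ∃ T : ℝ, T = √(OP (fun k => 2 * θ k)) := ⟨_, rfl⟩
  have hT0 : 0 ≤ T := by rw [hT]; exact Real.sqrt_nonneg _
  have hT2 : T ^ 2 = OP (fun k => 2 * θ k) := by rw [hT]; exact Real.sq_sqrt (OP_nonneg _)
  have hTn : T ≤ n := by
    rw [hT]
    apply Real.sqrt_le_iff.2
    refine ⟨hn0, ?_⟩
    rw [hn]
    exact OP_le _
  have h4 : (n - T) / 2 * OP θ ≤ ∑ i, (∑ j, Real.sin (θ j - θ i)) ^ 2 := by
    have e1 : ∑ i, (∑ j, Real.sin (θ j - θ i)) ^ 2 = ∑ i, ((∑ j, Real.sin (θ j)) * Real.cos (θ i) -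
        (∑ j, Real.cos (θ j)) * Real.sin (θ i)) ^ 2 := sum_congr rfl (fun i _ => by rw [q_eq])
    rw [e1, q_sum, ← hn]
    obtain ⟨C, hC⟩ : ∃ C : ℝ, C = ∑ j, Real.cos (θ j) := ⟨_, rfl⟩
    obtain ⟨S, hS⟩ : ∃ S : ℝ, S = ∑ j, Real.sin (θ j) := ⟨_, rfl⟩
    obtain ⟨C2, hC2⟩ : ∃ C2 : ℝ, C2 = ∑ j, Real.cos (2 * θ j) := ⟨_, rfl⟩
    obtain ⟨S2, hS2⟩ : ∃ S2 : ℝ, S2 = ∑ j, Real.sin (2 * θ j) := ⟨_, rfl⟩
    have hO : OP θ = C ^ 2 + S ^ 2 := by unfold OP; rw [hC, hS]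
    have hO2 : C2 ^ 2 + S2 ^ 2 ≤ T ^ 2 := by rw [hT2]; unfold OP; rw [hC2, hS2]
    rw [← hC, ← hS, ← hC2, ← hS2, hO]
    have e2 := cs2 (u := (S ^ 2 - C ^ 2) / 2) (v := -(S * C)) (x := C2) (y := S2) hT0 hO2
      (R := (C ^ 2 + S ^ 2) / 2) (by positivity) (by nlinarith)
    linarith
  have h34 : (n - T) / 2 * OP θ ≤ (1 / 4 + ε) * n * Y := h4.trans h3
  -- (5)
  have h5 : OP θ ≤ 5 * ε * n ^ 2 ∧ T ^ 2 ≤ 5 * ε * n ^ 2 := by
    rcases hn0.eq_or_lt with h0 | hpos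
    · rw [← hn, ← h0] at hOP
      have hT00 : T = 0 := le_antisymm (by rw [h0]; exact hTn) hT0
      rw [← h0, hT00]
      norm_num
      norm_num at hOP
      exact hOP
    · have hne : n ≠ 0 := hpos.ne'
      have e1 := num_b1 (P := T / n) (R := OP θ / n ^ 2) (ε := ε) (Y := Y / n ^ 2) (by positivity)
        ((div_le_one hpos).2 hTn) (div_nonneg (OP_nonneg _) (by positivity))
        (by
          rw [div_le_iff₀ (by positivity), ← mul_pow, hn]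
          exact hOP) hε hε1
        (by
          have e2 : n ^ 2 / 2 + T ^ 2 / 2 - OP θ ≤ 2 * ((1 / 4 + ε) * n ^ 2) - 3 / 2 * Y := by
            rw [hT2]
            linarith
          have e3 : 1 / 2 + (T / n) ^ 2 / 2 - OP θ / n ^ 2 = (n ^ 2 / 2 + T ^ 2 / 2 - OP θ) / n ^ 2 := by
            field_simp
          have e4 : 2 * (1 / 4 + ε) - 3 / 2 * (Y / n ^ 2) = (2 * ((1 / 4 + ε) * n ^ 2) - 3 / 2 * Y) / n ^ 2 := by
            field_simp
          rw [e3, e4]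
          exact div_le_div_of_nonneg_right e2 (by positivity))
        (by
          have e3 : (1 - T / n) / 2 * (OP θ / n ^ 2) = ((n - T) / 2 * OP θ) / n ^ 3 := by
            field_simp
          have e4 : (1 / 4 + ε) * (Y / n ^ 2) = ((1 / 4 + ε) * n * Y) / n ^ 3 := by
            field_simp
          rw [e3, e4]
          exact div_le_div_of_nonneg_right h34 (by positivity))
      obtain ⟨e1, e2⟩ := e1
      rw [div_le_iff₀ (by positivity)] at e1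
      rw [div_pow, div_le_iff₀ (by positivity)] at e2
      exact ⟨e1, e2⟩
  -- (6)
  have h6 : (1 / 2 - 5 * ε) * n ^ 2 ≤ X := by
    have := h5.1
    have h7 : 0 ≤ OP (fun k => 2 * θ k) := OP_nonneg _
    linarith
  have h7 : X ≤ 2 * SB := by
    have : 0 ≤ Y := by
      rw [hY]
      exact sum_nonneg (fun i _ => sum_nonneg (fun j _ => mul_nonneg (hB0 i j) (sq_nonneg _)))
    linarith
  have h8 : D ≤ 2 * SB - X := by
    rw [hDD, hX, hSB, mul_sum, ← sum_sub_distrib]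
    refine sum_le_sum (fun i _ => ?_)
    rw [mul_sum, ← sum_sub_distrib]
    refine sum_le_sum (fun j _ => ?_)
    have e1 := Real.cos_le_one (θ i - θ j)
    have e2 := Real.neg_one_le_cos (θ i - θ j)
    have e3 : 2 * (1 - A i j) - (1 - A i j) * (Real.cos (θ i - θ j) ^ 2 - Real.cos (θ i - θ j)) -
        (1 - A i j) * (1 + Real.cos (θ i - θ j)) =
        (1 - A i j) * ((1 - Real.cos (θ i - θ j)) * (1 + Real.cos (θ i - θ j))) := by ring
    have e4 : 0 ≤ (1 - A i j) * ((1 - Real.cos (θ i - θ j)) * (1 + Real.cos (θ i - θ j))) :=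
      mul_nonneg (hB0 i j) (mul_nonneg (by linarith) (by linarith))
    linarith
  rw [← hn]
  refine ⟨h5.1, ?_, ?_, ?_⟩
  · rw [← hT2]
    exact h5.2
  · rw [← hDD]
    linarith
  · rw [← hSB]
    linarith

end Pool.Agent.Q237.KU
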